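import Pool.Agent.H88.Gq4

open Pool.Agent.H88 in
theorem Pool.Agent.Results.MP_c85420_an.Yes.result :
    ∃ (X : Type) (_ : NormedAddCommGroup X) (_ : NormedSpace ℝ X), CompleteSpace X ∧ Gh.UD X ∧
      Gh.Hom X ∧ ¬ Gh.UDS X := by
  obtain ⟨φ, h⟩ := Gq.total
  have : CompleteSpace Gq.XX := (Submodule.isClosed_topologicalClosure _).completeSpace_coe
  exact ⟨Gq.XX, inferInstance, inferInstance, this, Gq.ud, Gq.hom,
    Gq.not_uds (fun n => Gq.ev (φ n)) h⟩
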